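import Pool.Agent.P.MP_8d0004_nt.LR.M2

/-! The involutions of level six and the cusp forms of weight six. -/

set_option autoImplicit false

namespace Pool.Agent.P.MP_8d0004_nt.NF

open UpperHalfPlane ModularForm Filter Asymptotics Complex EisensteinSeries
open Pool.Agent.P.MP_8d0004_nt.LR.M2
open scoped MatrixGroups Manifold Topology Real

/-- A matrix of determinant one. -/
def mk2 (a b c d : ℤ) (h : a * d - b * c = 1) : SL(2, ℤ) :=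
  ⟨!![a, b; c, d], by rw [Matrix.det_fin_two_of]; exact h⟩

/-- The automorphy factor. -/
noncomputable def den (g : SL(2, ℤ)) (z : ℍ) : ℂ := denom g z

lemma den_ne (g : SL(2, ℤ)) (z : ℍ) : den g z ≠ 0 := denom_ne_zero g z

lemma den_eq (g : SL(2, ℤ)) (z : ℍ) : den g z = (g 1 0 : ℤ) * (z : ℂ) + (g 1 1 : ℤ) := by
  simp [den, denom]

lemma slash_den (f : ℍ → ℂ) (k : ℤ) (g : SL(2, ℤ)) (z : ℍ) :
    (f ∣[k] g) z = f (g • z) * den g z ^ (-k) := SL_slash_apply _ _ _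

lemma mul_10 (A B : SL(2, ℤ)) : (A * B) 1 0 = A 1 0 * B 0 0 + A 1 1 * B 1 0 := by
  rw [Matrix.SpecialLinearGroup.coe_mul, Matrix.mul_apply, Fin.sum_univ_two]

lemma mul_11 (A B : SL(2, ℤ)) : (A * B) 1 1 = A 1 0 * B 0 1 + A 1 1 * B 1 1 := by
  rw [Matrix.SpecialLinearGroup.coe_mul, Matrix.mul_apply, Fin.sum_univ_two]

lemma coe_eq (g : SL(2, ℤ)) (z : ℍ) : ((g • z : ℍ) : ℂ) =
    ((g 0 0 : ℤ) * (z : ℂ) + (g 0 1 : ℤ)) / ((g 1 0 : ℤ) * (z : ℂ) + (g 1 1 : ℤ)) := by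
  simpa using coe_specialLinearGroup_apply g z

lemma dm_one (z : ℍ) : dm 1 • z = z := by
  ext
  rw [dm_smul]
  simp

lemma E2_at (g : SL(2, ℤ)) (w : ℍ) : E2 (g • w) = den g w ^ 2 * E2 w -
    1 / (2 * riemannZeta 2) * (2 * π * Complex.I) * (g 1 0 : ℤ) * den g w := by
  have h := congrFun (E2_slash_action g) w
  have hd := den_ne g w
  have hD : D2 g w = 2 * π * Complex.I * (g 1 0 : ℤ) / den g w := rfl
  rw [slash_den, Pi.sub_apply, Pi.smul_apply, hD, smul_eq_mul, zpow_neg,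
    mul_inv_eq_iff_eq_mul₀ (zpow_ne_zero _ hd)] at h
  rw [h]
  generalize 1 / (2 * riemannZeta 2) = κ
  field_simp

lemma e_trans (g g' : SL(2, ℤ)) (t s t' : ℕ+) (l : ℤ)
    (h0 : ((t : ℕ) : ℤ) * (s : ℕ) = l ^ 2 * (t' : ℕ))
    (h1 : ((t : ℕ) : ℤ) * g 0 0 * (s : ℕ) = l * g' 0 0 * (t' : ℕ))
    (h2 : ((t : ℕ) : ℤ) * g 0 1 = l * g' 0 1) (h3 : g 1 0 * (s : ℕ) = l * g' 1 0 * (t' : ℕ))
    (h4 : g 1 1 = l * g' 1 1) (z : ℍ) :
    ((t : ℕ) : ℂ) * E2 (dm t • g • dm s • z) =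
      den g (dm s • z) ^ 2 / (s : ℕ) * ((t' : ℕ) * E2 (dm t' • z)) -
        1 / (2 * riemannZeta 2) * (2 * π * Complex.I) * (g 1 0 : ℤ) * den g (dm s • z) := by
  have k0 : ((t : ℕ) : ℂ) * (s : ℕ) = (l : ℂ) ^ 2 * (t' : ℕ) := by exact_mod_cast h0
  have k1 : ((t : ℕ) : ℂ) * (g 0 0 : ℤ) * (s : ℕ) = l * (g' 0 0 : ℤ) * (t' : ℕ) := by
    exact_mod_cast h1
  have k2 : ((t : ℕ) : ℂ) * (g 0 1 : ℤ) = l * (g' 0 1 : ℤ) := by exact_mod_cast h2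
  have k3 : ((g 1 0 : ℤ) : ℂ) * (s : ℕ) = l * (g' 1 0 : ℤ) * (t' : ℕ) := by exact_mod_cast h3
  have k4 : ((g 1 1 : ℤ) : ℂ) = l * (g' 1 1 : ℤ) := by exact_mod_cast h4
  have hs : ((s : ℕ) : ℂ) ≠ 0 := by exact_mod_cast s.ne_zero
  have hJ : den g (dm s • z) = l * den g' (dm t' • z) := by
    rw [den_eq, den_eq, dm_smul, dm_smul]
    linear_combination (z : ℂ) * k3 + k4
  have hp : dm t • g • dm s • z = g' • dm t' • z := by
    ext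
    rw [dm_smul, coe_eq, coe_eq, ← den_eq, ← den_eq, ← mul_div_assoc,
      div_eq_div_iff (den_ne _ _) (den_ne _ _), hJ, dm_smul, dm_smul]
    linear_combination den g' (dm t' • z) * ((z : ℂ) * k1 + k2)
  rw [hp, E2_at, hJ]
  generalize 1 / (2 * riemannZeta 2) * (2 * π * Complex.I) = κ
  field_simp
  linear_combination den g' (dm t' • z) *
    ((den g' (dm t' • z) * E2 (dm t' • z) - κ * (g' 1 0 : ℤ)) * k0 + κ * l * k3)

/-- The three matrices. -/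
def g2 : SL(2, ℤ) := mk2 1 1 3 4 rfl
def g3 : SL(2, ℤ) := mk2 1 1 2 3 rfl
def g6 : SL(2, ℤ) := mk2 0 (-1) 1 0 rfl

lemma c1 : ((1 : ℕ+) : ℕ) = 1 := rfl
lemma c2 : ((2 : ℕ+) : ℕ) = 2 := rfl
lemma c3 : ((3 : ℕ+) : ℕ) = 3 := rfl
lemma c6 : ((6 : ℕ+) : ℕ) = 6 := rfl

lemma w3 (z : ℍ) : ∀ J, J = den g3 (dm 3 • z) ^ 2 / 3 → Zc (g3 • dm 3 • z) = J * -Zc z ∧
    Wc (g3 • dm 3 • z) = J * -Wc z ∧ hc (g3 • dm 3 • z) = J * hc z := by
  have e1 := e_trans g3 g3 1 3 3 1 rfl rfl rfl rfl rfl z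
  have e2 := e_trans g3 (mk2 1 2 1 3 rfl) 2 3 6 1 rfl rfl rfl rfl rfl z
  have e3 := e_trans g3 (mk2 3 1 2 1 rfl) 3 3 1 3 rfl rfl rfl rfl rfl z
  have e6 := e_trans g3 (mk2 3 2 1 1 rfl) 6 3 2 3 rfl rfl rfl rfl rfl z
  simp only [c1, c2, c3, c6, dm_one, Nat.cast_ofNat, Nat.cast_one] at e1 e2 e3 e6
  rintro J rfl
  unfold Zc Wc hc
  refine ⟨?_, ?_, ?_⟩
  · linear_combination (e1 - 2 * e2 - e3 + 2 * e6) / 6
  · linear_combination (-2 * e1 + e2 + 2 * e3 - e6) / 48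
  · linear_combination (-e1 + e2 - e3 + e6) / 4

lemma w2 (z : ℍ) : ∀ J, J = den g2 (dm 2 • z) ^ 2 / 2 → Zc (g2 • dm 2 • z) = J * (8 * Wc z) ∧
    Wc (g2 • dm 2 • z) = J * (Zc z / 8) ∧ hc (g2 • dm 2 • z) = J * -hc z := by
  have e1 := e_trans g2 g2 1 2 2 1 rfl rfl rfl rfl rfl z
  have e2 := e_trans g2 (mk2 2 1 3 2 rfl) 2 2 1 2 rfl rfl rfl rfl rfl z
  have e3 := e_trans g2 (mk2 1 3 1 4 rfl) 3 2 6 1 rfl rfl rfl rfl rfl z
  have e6 := e_trans g2 (mk2 2 3 1 2 rfl) 6 2 3 2 rfl rfl rfl rfl rfl z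
  simp only [c1, c2, c3, c6, dm_one, Nat.cast_ofNat, Nat.cast_one] at e1 e2 e3 e6
  rintro J rfl
  unfold Zc Wc hc
  refine ⟨?_, ?_, ?_⟩
  · linear_combination (e1 - 2 * e2 - e3 + 2 * e6) / 6
  · linear_combination (-2 * e1 + e2 + 2 * e3 - e6) / 48
  · linear_combination (-e1 + e2 - e3 + e6) / 4

lemma w6' (z : ℍ) : ∀ J, J = den g6 (dm 6 • z) ^ 2 / 6 →
    Zc (g6 • dm 6 • z) = J * -(8 * Wc z) ∧
    Wc (g6 • dm 6 • z) = J * -(Zc z / 8) ∧ hc (g6 • dm 6 • z) = J * -hc z := by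
  have e1 := e_trans g6 g6 1 6 6 1 rfl rfl rfl rfl rfl z
  have e2 := e_trans g6 g6 2 6 3 2 rfl rfl rfl rfl rfl z
  have e3 := e_trans g6 g6 3 6 2 3 rfl rfl rfl rfl rfl z
  have e6 := e_trans g6 g6 6 6 1 6 rfl rfl rfl rfl rfl z
  simp only [c1, c2, c3, c6, dm_one, Nat.cast_ofNat, Nat.cast_one] at e1 e2 e3 e6
  rintro J rfl
  unfold Zc Wc hc
  refine ⟨?_, ?_, ?_⟩
  · linear_combination (e1 - 2 * e2 - e3 + 2 * e6) / 6
  · linear_combination (-2 * e1 + e2 + 2 * e3 - e6) / 48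
  · linear_combination (-e1 + e2 - e3 + e6) / 4

/-- The general cubic form. -/
noncomputable def cub (c : Fin 7 → ℂ) (Z W h : ℂ) : ℂ :=
  c 0 * Z ^ 3 + c 1 * Z ^ 2 * W + c 2 * Z * W ^ 2 + c 3 * W ^ 3 + c 4 * Z ^ 2 * h
    + c 5 * Z * W * h + c 6 * W ^ 2 * h

lemma cub_smul (c : Fin 7 → ℂ) (J Z W h : ℂ) :
    cub c (J * Z) (J * W) (J * h) = J ^ 3 * cub c Z W h := by
  unfold cub
  ring

lemma al_apply (f : ℍ → ℂ) (g : SL(2, ℤ)) (s : ℕ+) (z : ℍ) (y : ℂ)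
    (h : f (g • dm s • z) = (den g (dm s • z) ^ 2 / (s : ℕ)) ^ 3 * y) :
    ((f ∣[(6 : ℤ)] g) ∣[(6 : ℤ)] dm s) z = ((s : ℕ) : ℂ) ^ 2 * y := by
  have hs : ((s : ℕ) : ℂ) ≠ 0 := by exact_mod_cast s.ne_zero
  have hd := den_ne g (dm s • z)
  rw [dm_slash, slash_den, h, zpow_neg, show (6 : ℤ) - 1 = 5 by norm_num]
  simp only [zpow_ofNat]
  field_simp

/-- Vanishing at all cusps. -/
def Cusp (f : ℍ → ℂ) : Prop := ∀ g : SL(2, ℤ), IsZeroAtImInfty (f ∣[(6 : ℤ)] g)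

lemma zero_iff (f : ℍ → ℂ) (s : ℕ+) :
    IsZeroAtImInfty (f ∣[(6 : ℤ)] dm s) ↔ IsZeroAtImInfty f := by
  refine ⟨fun h => ?_, fun h => h.slash _ (dm_10 s)⟩
  have := h.slash 6 (g := (dm s)⁻¹) (by
    rw [Matrix.GeneralLinearGroup.coe_inv, Matrix.inv_def, Matrix.adjugate_fin_two]
    simp [dm_10])
  rwa [← SlashAction.slash_mul, mul_inv_cancel, SlashAction.slash_one] at this

lemma Ap_lim {f : ℍ → ℂ} {a0 a1 a2 a3 a4 a5 a6 : ℂ} (h : Ap f a0 a1 a2 a3 a4 a5 a6) :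
    Tendsto f atImInfty (𝓝 a0) := by
  have h1 : Tendsto (fun τ => q τ ^ 7) atImInfty (𝓝 0) := by simpa using q_tendsto.pow 7
  have h2 := (IsBigO.trans_tendsto h h1).add
    (((pl_cont a0 a1 a2 a3 a4 a5 a6).tendsto 0).comp q_tendsto)
  simpa [pl] using h2

lemma cub_lim (c : Fin 7 → ℂ) {Z W h : ℍ → ℂ} {a b d : ℂ} (hZ : Tendsto Z atImInfty (𝓝 a))
    (hW : Tendsto W atImInfty (𝓝 b)) (hh : Tendsto h atImInfty (𝓝 d)) (k : ℂ) :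
    Tendsto (fun z => k * cub c (Z z) (W z) (h z)) atImInfty (𝓝 (k * cub c a b d)) := by
  have hc : Continuous fun p : ℂ × ℂ × ℂ => k * cub c p.1 p.2.1 p.2.2 := by
    unfold cub
    fun_prop
  have h1 := (hc.tendsto (a, b, d)).comp (hZ.prodMk_nhds (hW.prodMk_nhds hh))
  simpa only [Function.comp_def] using h1

lemma lims {f : ℍ → ℂ} {c : Fin 7 → ℂ} (hf : ∀ z, f z = cub c (Zc z) (Wc z) (hc z)) :
    Tendsto f atImInfty (𝓝 (c 0 + c 4)) ∧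
    Tendsto ((f ∣[(6 : ℤ)] g3) ∣[(6 : ℤ)] dm 3) atImInfty (𝓝 (9 * (c 4 - c 0))) ∧
    Tendsto ((f ∣[(6 : ℤ)] g2) ∣[(6 : ℤ)] dm 2) atImInfty (𝓝 ((c 3 - 8 * c 6) / 128)) ∧
    Tendsto ((f ∣[(6 : ℤ)] g6) ∣[(6 : ℤ)] dm 6) atImInfty (𝓝 (-9 * (c 3 + 8 * c 6) / 128)) := by
  have hZ := Ap_lim mZ.2
  have hW := Ap_lim mW.2
  have hh := Ap_lim mh.2
  refine ⟨?_, ?_, ?_, ?_⟩
  · have := cub_lim c hZ hW hh 1
    rw [show 1 * cub c 1 0 1 = c 0 + c 4 by unfold cub; ring] at this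
    exact this.congr fun z => by rw [hf, one_mul]
  · have := cub_lim c hZ.neg hW.neg hh (((3 : ℕ+) : ℕ) ^ 2)
    rw [show (((3 : ℕ+) : ℕ) : ℂ) ^ 2 * cub c (-1) (-0) 1 = 9 * (c 4 - c 0) by
      rw [c3]; unfold cub; push_cast; ring] at this
    refine this.congr fun z => (al_apply f g3 3 z _ ?_).symm
    obtain ⟨a, b, d⟩ := w3 z _ rfl
    rw [hf, a, b, d, cub_smul, c3, Nat.cast_ofNat]
  · have := cub_lim c (hW.const_mul 8) (hZ.div_const 8) hh.neg (((2 : ℕ+) : ℕ) ^ 2)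
    rw [show (((2 : ℕ+) : ℕ) : ℂ) ^ 2 * cub c (8 * 0) (1 / 8) (-1) = (c 3 - 8 * c 6) / 128 by
      rw [c2]; unfold cub; push_cast; ring] at this
    refine this.congr fun z => (al_apply f g2 2 z _ ?_).symm
    obtain ⟨a, b, d⟩ := w2 z _ rfl
    rw [hf, a, b, d, cub_smul, c2, Nat.cast_ofNat]
  · have := cub_lim c (hW.const_mul 8).neg (hZ.div_const 8).neg hh.neg (((6 : ℕ+) : ℕ) ^ 2)
    rw [show (((6 : ℕ+) : ℕ) : ℂ) ^ 2 * cub c (-(8 * 0)) (-(1 / 8)) (-1)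
      = -9 * (c 3 + 8 * c 6) / 128 by rw [c6]; unfold cub; push_cast; ring] at this
    refine this.congr fun z => (al_apply f g6 6 z _ ?_).symm
    obtain ⟨a, b, d⟩ := w6' z _ rfl
    rw [hf, a, b, d, cub_smul, c6, Nat.cast_ofNat]

lemma cusp_of_four {f : ℍ → ℂ} (hf : MF 6 f) (h1 : IsZeroAtImInfty f)
    (h3 : IsZeroAtImInfty (f ∣[(6 : ℤ)] g3)) (h2 : IsZeroAtImInfty (f ∣[(6 : ℤ)] g2))
    (h6 : IsZeroAtImInfty (f ∣[(6 : ℤ)] g6)) : Cusp f := by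
  intro g
  have step : ∀ (B : SL(2, ℤ)) (n : ZMod 6), IsZeroAtImInfty (f ∣[(6 : ℤ)] B) →
      ((g 1 0 : ℤ) : ZMod 6) * ((B 1 0 : ℤ) * n + (B 1 1 : ℤ)) - (g 1 1 : ℤ) * (B 1 0 : ℤ) = 0 →
      IsZeroAtImInfty (f ∣[(6 : ℤ)] g) := by
    intro B n hB hn
    rw [hf.slash_eq g (B * mk2 1 n.val 0 1 (by ring)) ?_, SlashAction.slash_mul, SL_slash]
    · exact hB.slash _ Int.cast_zero
    · refine (ZMod.intCast_zmod_eq_zero_iff_dvd _ 6).1 ?_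
      rw [← hn, mul_10, mul_11]
      simp [mk2]
  have hdet : g 0 0 * g 1 1 - g 0 1 * g 1 0 = 1 := by
    rw [← Matrix.det_fin_two]; exact g.det_coe
  have hd : ((g 0 0 : ℤ) : ZMod 6) * (g 1 1 : ℤ) - (g 0 1 : ℤ) * (g 1 0 : ℤ) = 1 := by
    exact_mod_cast congrArg (Int.cast : ℤ → ZMod 6) hdet
  have key : ∀ a b c d : ZMod 6, a * d - b * c = 1 → ∃ n : ZMod 6, c * (0 * n + 1) - d * 0 = 0 ∨
      c * (2 * n + 3) - d * 2 = 0 ∨ c * (3 * n + 4) - d * 3 = 0 ∨ c * (1 * n + 0) - d * 1 = 0 := by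
    decide +kernel
  obtain ⟨n, h | h | h | h⟩ := key _ _ _ _ hd
  · exact step 1 n (by rwa [SlashAction.slash_one]) (by simpa using h)
  · exact step g3 n h3 h
  · exact step g2 n h2 h
  · exact step g6 n h6 h

lemma cusp_cub {f : ℍ → ℂ} (hf : MF 6 f) (x y w : ℂ)
    (h : ∀ z, f z = x * (Zc * Zc * Wc) z + y * (Zc * Wc * Wc) z + w * (Zc * Wc * hc) z) :
    Cusp f := by
  obtain ⟨a, b, d, e⟩ := lims (f := f) (c := ![0, x, y, 0, 0, w, 0]) fun z => by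
    rw [h]
    simp only [cub, Pi.mul_apply, Matrix.cons_val]
    ring
  simp only [Matrix.cons_val, add_zero, sub_zero, mul_zero, zero_div] at a b d e
  exact cusp_of_four hf a ((zero_iff _ 3).1 b) ((zero_iff _ 2).1 d) ((zero_iff _ 6).1 e)

theorem cusp_dec {f : ℍ → ℂ} {a0 a1 a2 a3 a4 a5 a6 : ℂ} (hf : MA 6 f a0 a1 a2 a3 a4 a5 a6)
    (hc0 : Cusp f) : ∃ x y w : ℂ,
      (∀ z, f z = x * (Zc * Zc * Wc) z + y * (Zc * Wc * Wc) z + w * (Zc * Wc * hc) z) ∧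
      x + w = a1 ∧ -6 * x + y + 4 * w = a2 ∧ 9 * x - 9 * w = a3 ∧ 4 * x - 6 * y + 16 * w = a4 := by
  obtain ⟨c1, c2, c3, c4, c5, c6, c7, h0, h1, h2, h3, h4, h5, h6⟩ :
      ∃ c1 c2 c3 c4 c5 c6 c7 : ℂ, c1 + c5 = a0 ∧ -12 * c1 + c2 - 2 * c5 + c6 = a1 ∧
      60 * c1 - 6 * c2 + c3 - 18 * c5 + 4 * c6 + c7 = a2 ∧
      -172 * c1 + 9 * c2 + c4 + 98 * c5 - 9 * c6 + 10 * c7 = a3 ∧
      396 * c1 + 4 * c2 - 6 * c3 + 6 * c4 - 338 * c5 + 16 * c6 + 36 * c7 = a4 ∧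
      -1032 * c1 + 6 * c2 + 15 * c4 + 1044 * c5 - 66 * c6 + 114 * c7 = a5 ∧
      2524 * c1 - 54 * c2 + 9 * c3 + 32 * c4 - 2318 * c5 - 36 * c6 + 311 * c7 = a6 :=
    ⟨(1206 * a0 + 116 * a1 - 39 * a2 - 32 * a3 - 5 * a4 + 2 * a5 + a6) / 1458,
      (7848 * a0 + 1517 * a1 - 426 * a2 - 329 * a3 - 56 * a4 + 23 * a5 + 10 * a6) / 486,
      (53208 * a0 + 13214 * a1 - 3621 * a2 - 3254 * a3 - 548 * a4 + 242 * a5 + 91 * a6) / 486,
      (206424 * a0 + 54742 * a1 - 16233 * a2 - 14488 * a3 - 2158 * a4 + 1099 * a5 + 365 * a6)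
        / 729,
      (252 * a0 - 116 * a1 + 39 * a2 + 32 * a3 + 5 * a4 - 2 * a5 - a6) / 1458,
      (-8568 * a0 - 1933 * a1 + 888 * a2 + 667 * a3 + 118 * a4 - 49 * a5 - 20 * a6) / 1458,
      (-51912 * a0 - 13652 * a1 + 4143 * a2 + 3668 * a3 + 554 * a4 - 272 * a5 - 91 * a6) / 1458,
      by ring, by ring, by ring, by ring, by ring, by ring, by ring⟩
  have H := w6 hf c1 c2 c3 c4 c5 c6 c7 h0 h1 h2 h3 h4 h5 h6
  obtain ⟨a, b, d, e⟩ := lims (f := f) (c := ![c1, c2, c3, c4, c5, c6, c7]) fun z => by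
    rw [H]
    simp only [cub, Matrix.cons_val]
  simp only [Matrix.cons_val] at a b d e
  have k1 := hc0 1
  rw [SlashAction.slash_one] at k1
  have e1 := tendsto_nhds_unique a k1
  have e2 := tendsto_nhds_unique b ((zero_iff _ 3).2 (hc0 g3))
  have e3 := tendsto_nhds_unique d ((zero_iff _ 2).2 (hc0 g2))
  have e4 := tendsto_nhds_unique e ((zero_iff _ 6).2 (hc0 g6))
  obtain rfl : c1 = 0 := by linear_combination e1 / 2 - e2 / 18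
  obtain rfl : c5 = 0 := by linear_combination e1
  obtain rfl : c4 = 0 := by linear_combination 64 * e3 - 64 / 9 * e4
  obtain rfl : c7 = 0 := by linear_combination -16 * e3
  refine ⟨c2, c3, c6, fun z => ?_, by linear_combination h1, by linear_combination h2,
    by linear_combination h3, by linear_combination h4⟩
  rw [H]
  simp only [Pi.mul_apply]
  ring

end Pool.Agent.P.MP_8d0004_nt.NF
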