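import Pool.Agent.P.MP_8d0004_nt.NF.New
import Pool.Agent.P.MP_8d0004_nt.LR.Fin

/-! The value of the Dirichlet series of the newform at seven, and convergence of the moments. -/

set_option autoImplicit false

namespace Pool.Agent.P.MP_8d0004_nt.NF

open UpperHalfPlane ModularForm Filter Complex CongruenceSubgroup
open Pool.Agent.P.MP_8d0004_nt.LR.M2 MeasureTheory Set
open scoped MatrixGroups Manifold Topology Real

lemma axis {y : ℝ} (hy : 0 < y) : cf0.form (ofComplex (Complex.I * y)) = (LR.ff y : ℂ) := by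
  obtain ⟨τ, hτ⟩ : ∃ τ : ℍ, (τ : ℂ) = Complex.I * y := ⟨⟨Complex.I * y, by simpa using hy⟩, rfl⟩
  obtain ⟨a1, -⟩ := LR.stL τ y hτ
  obtain ⟨a2, -⟩ := LR.stL (dm 2 • τ) (2 * y) (by rw [dm_smul, hτ, c2]; push_cast; ring)
  obtain ⟨a3, -⟩ := LR.stL (dm 3 • τ) (3 * y) (by rw [dm_smul, hτ, c3]; push_cast; ring)
  obtain ⟨a6, -⟩ := LR.stL (dm 6 • τ) (6 * y) (by rw [dm_smul, hτ, c6]; push_cast; ring)
  obtain ⟨-, -, -, -, h, -⟩ := LR.stM3 LR.stM1 (LR.stM2 LR.stL)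
  rw [← hτ, ofComplex_apply, (h y hy).2.2]
  change Zc τ * Wc τ * hc τ = _
  rw [LR.Zf, LR.Wf, LR.hf, Zc, Wc, hc, ← a1, ← a2, ← a3, ← a6]
  push_cast
  ring

theorem lval : LSeriesHasSum (fun n => (qExpansion 1 cf0.form).coeff n) 7
    (((2 * π) ^ 7 / 720 * ∫ y in Ioi (0 : ℝ), LR.ff y * y ^ 6 : ℝ) : ℂ) := by
  have h := CuspForm.hasSum_L (Γ := Gamma0 6) (k := 6) (by norm_num) cf0.form (s := 7)
    (by norm_num)
  rw [strictWidthInfty_Gamma0] at h
  have e : mellin (fun t : ℝ => cf0.form (ofComplex (Complex.I * t))) 7 =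
      ((∫ y in Ioi (0 : ℝ), LR.ff y * y ^ 6 : ℝ) : ℂ) := by
    rw [mellin, ← integral_complex_ofReal]
    refine setIntegral_congr_fun measurableSet_Ioi fun y hy => ?_
    have : (7 : ℂ) - 1 = (6 : ℕ) := by norm_num
    simp only [axis hy, this, cpow_natCast, smul_eq_mul]
    push_cast
    ring
  have g : Gammaℂ 7 = 2 * ((2 * (π : ℂ)) ^ (7 : ℕ))⁻¹ * 720 := by
    have h7 : (7 : ℂ) = (7 : ℕ) := by norm_num
    have : Complex.Gamma 7 = 720 := by
      have := Complex.Gamma_nat_eq_factorial 6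
      norm_num [Nat.factorial] at this ⊢
    rw [Gammaℂ_def, this, cpow_neg, h7, cpow_natCast]
  rw [ModularForm.L, CuspForm.Λ_eq_mellin, e, g] at h
  have hπ : (π : ℂ) ≠ 0 := ofReal_ne_zero.2 Real.pi_ne_zero
  have e2 : (((2 * π) ^ 7 / 720 * ∫ y in Ioi (0 : ℝ), LR.ff y * y ^ 6 : ℝ) : ℂ) =
      ((1 : ℝ) : ℂ) ^ (-7 : ℂ) * (((∫ y in Ioi (0 : ℝ), LR.ff y * y ^ 6 : ℝ) : ℂ) *
        (2 / (2 * ((2 * (π : ℂ)) ^ (7 : ℕ))⁻¹ * 720))) := by
    rw [ofReal_one, one_cpow, ofReal_mul]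
    push_cast
    field_simp
  rw [e2, LSeriesHasSum, funext (LSeries.term_of_ne_zero' (by norm_num : (7 : ℂ) ≠ 0) _)]
  exact h

lemma mom_int (a b n : ℕ) (h1 : a + b ≤ 8) (h2 : a + 2 ≤ b) (hn : n ≤ 9) :
    IntegrableOn (fun t : ℝ => Bes.I0 t ^ a * Bes.K0 t ^ b * t ^ n) (Ioi 0) := by
  rw [← Real.range_exp, ← image_univ,
    integrableOn_image_iff_integrableOn_abs_deriv_smul MeasurableSet.univ
      (fun x _ => (Real.hasDerivAt_exp x).hasDerivWithinAt)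
      (fun x _ y _ hxy => Real.exp_injective hxy), integrableOn_univ]
  have h := (Bes.env_mono a 0 b 0 (by omega) (by omega)).integrable (s := n + 1)
    (by have : (0 : ℝ) ≤ n := n.cast_nonneg; linarith)
    (by have : (n : ℝ) ≤ 9 := by exact_mod_cast hn
        linarith)
  refine h.congr (Eventually.of_forall fun v => ?_)
  simp only [Bes.ii, Bes.kk, abs_of_pos (Real.exp_pos v), smul_eq_mul, pow_zero, mul_one, add_mul,
    one_mul, Real.exp_add, Real.exp_nat_mul]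
  ring

end Pool.Agent.P.MP_8d0004_nt.NF
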