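import Mathlib

/-! Integration over a fundamental domain of level six. -/

set_option autoImplicit false

namespace Pool.Agent.P.MP_8d0004_nt.NF

open UpperHalfPlane MeasureTheory CongruenceSubgroup Set ModularGroup
open scoped MatrixGroups Pointwise

lemma vol_zero {s : Set ℍ} (h : volume ((↑) '' s : Set ℂ) = 0) : volume s = 0 := by
  rw [volume_eq_lintegral]
  exact setLIntegral_measure_zero _ _ h

lemma line_zero (a : ℝ) : volume {z : ℂ | z.re = a} = 0 := by
  have h := Complex.volume_preserving_equiv_real_prod.measure_preimage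
    (s := ({a} : Set ℝ) ×ˢ (univ : Set ℝ))
    ((measurableSet_singleton a).prod MeasurableSet.univ).nullMeasurableSet
  rw [Measure.volume_eq_prod, Measure.prod_prod, Real.volume_singleton, zero_mul] at h
  rw [← h]
  congr 1
  ext z
  simp

lemma bdry_zero : volume (fd \ fdo) = 0 := by
  refine vol_zero (measure_mono_null (t := Metric.sphere 0 1 ∪ ({z : ℂ | z.re = 1 / 2} ∪
    {z : ℂ | z.re = -(1 / 2)})) ?_ ?_)
  · rintro _ ⟨z, ⟨⟨h1, h2⟩, h3⟩, rfl⟩
    by_cases h4 : 1 < Complex.normSq (z : ℂ)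
    · have h5 : |z.re| = 1 / 2 := le_antisymm h2 (not_lt.1 fun h => h3 ⟨h4, h⟩)
      exact Or.inr ((abs_eq (by norm_num)).1 h5)
    · left
      have h5 : Complex.normSq (z : ℂ) = 1 := le_antisymm (not_lt.1 h4) h1
      rw [mem_sphere_zero_iff_norm, Complex.norm_def, h5, Real.sqrt_one]
  · exact measure_union_null (Measure.addHaar_sphere _ _ _)
      (measure_union_null (line_zero _) (line_zero _))

lemma fd_ae : (fd : Set ℍ) =ᵐ[volume] fdo :=
  ae_eq_set.2 ⟨bdry_zero, by rw [sdiff_eq_empty.2 fdo_subset_fd, measure_empty]⟩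

lemma fd_fin : volume (fd : Set ℍ) < ⊤ := by
  have h1 : IntegrableOn (fun p : ℝ × ℝ => (1 : ℝ) * p.2 ^ (-2 : ℝ))
      (Icc (-1 : ℝ) 1 ×ˢ Ioi (1 / 2 : ℝ)) := by
    rw [IntegrableOn, Measure.volume_eq_prod, ← Measure.prod_restrict]
    exact Integrable.mul_prod (f := fun _ : ℝ => (1 : ℝ)) (g := fun y : ℝ => y ^ (-2 : ℝ))
      (integrable_const _) (integrableOn_Ioi_rpow_of_lt (by norm_num) (by norm_num))
  have h2 := (Complex.volume_preserving_equiv_real_prod.integrableOn_comp_preimage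
    Complex.measurableEquivRealProd.measurableEmbedding).2 h1
  have hs : ((↑) '' fd : Set ℂ) ⊆
      Complex.measurableEquivRealProd ⁻¹' (Icc (-1 : ℝ) 1 ×ˢ Ioi (1 / 2 : ℝ)) := by
    rintro _ ⟨z, hz, rfl⟩
    have h3 := three_le_four_mul_im_sq_of_mem_fd hz
    have h4 := abs_le.1 hz.2
    have h5 := z.im_pos
    refine ⟨⟨?_, ?_⟩, ?_⟩
    · change -1 ≤ z.re
      linarith
    · change z.re ≤ 1
      linarith
    · change 1 / 2 < z.im
      nlinarith
  rw [volume_eq_lintegral]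
  refine lt_of_le_of_lt (le_of_eq ?_) (h2.mono_set hs).2
  refine setLIntegral_congr_fun
    (measurableEmbedding_coe.measurableSet_image.2 isClosed_fd.measurableSet) ?_
  rintro _ ⟨z, -, rfl⟩
  have h5 := z.im_pos
  simp only [Function.comp, enorm_eq_nnnorm]
  congr 1
  ext
  simp [abs_of_pos h5, Real.rpow_neg h5.le]

instance : Measure.IsOpenPosMeasure (volume : Measure ℍ) := by
  refine ⟨fun U hU hne h => ?_⟩
  rw [volume_eq_lintegral, lintegral_eq_zero_iff (by fun_prop)] at h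
  have hm := isOpenEmbedding_coe.isOpenMap U hU
  refine (hm.measure_pos volume (hne.image _)).ne' ?_
  rw [Filter.EventuallyEq, ae_restrict_iff' hm.measurableSet] at h
  refine measure_mono_null ?_ h
  rintro _ ⟨z, hz, rfl⟩ h1
  have h2 := h1 ⟨z, hz, rfl⟩
  simp [z.im_ne_zero] at h2

lemma mp (g : SL(2, ℤ)) : MeasurePreserving (fun z : ℍ => g • z) :=
  measurePreserving_smul (g : GL (Fin 2) ℝ) volume

lemma cont (g : SL(2, ℤ)) : Continuous fun z : ℍ => g • z :=
  continuous_const_smul (g : GL (Fin 2) ℝ)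

lemma memb (g : SL(2, ℤ)) : MeasurableEmbedding fun z : ℍ => g • z :=
  measurableEmbedding_const_smul (g : GL (Fin 2) ℝ)

instance : MeasurableConstSMul (Gamma1 6) ℍ := ⟨fun g => (cont g.1).measurable⟩

instance : SMulInvariantMeasure (Gamma1 6) ℍ volume :=
  ⟨fun g _ hs => (mp g.1).measure_preimage hs.nullMeasurableSet⟩

instance : Countable SL(2, ℤ) := by
  have : Countable (Matrix (Fin 2) (Fin 2) ℤ) := inferInstanceAs (Countable (Fin 2 → Fin 2 → ℤ))
  exact inferInstanceAs (Countable {A : Matrix (Fin 2) (Fin 2) ℤ // A.det = 1})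

/-- Cosets of level six. -/
abbrev Qs := SL(2, ℤ) ⧸ Gamma0 6

/-- One tile. -/
def tile (c : Qs) : Set ℍ := (fun z => c.out • z) ⁻¹' fdo

/-- The fundamental domain. -/
def dom : Set ℍ := ⋃ c, tile c

lemma tile_open (c : Qs) : IsOpen (tile c) := isOpen_fdo.preimage (cont _)

lemma neg_one_mem : (-1 : SL(2, ℤ)) ∈ Gamma0 6 := by simp [Gamma0_mem]

lemma tile_key {c c' : Qs} {g : SL(2, ℤ)} (hg : g ∈ Gamma0 6) {z : ℍ} (h : z ∈ tile c)
    (h' : g • z ∈ tile c') : c = c' ∧ (g = 1 ∨ g = -1) := by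
  have h1 : (c'.out * g * c.out⁻¹) • c.out • z ∈ fdo := by
    rw [← mul_smul, inv_mul_cancel_right, mul_smul]
    exact h'
  have h2 := eq_one_or_neg_one_of_mem_fdo_mem_fdo h h1
  have h3 : c = c' := by
    rw [← c.out_eq', ← c'.out_eq', eq_comm, QuotientGroup.eq]
    rcases h2 with h2 | h2
    · have : c'.out⁻¹ * c.out = g := by
        rw [mul_inv_eq_one] at h2
        rw [← h2, inv_mul_cancel_left]
      exact this ▸ hg
    · have : c'.out⁻¹ * c.out = -1 * g := by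
        rw [mul_inv_eq_iff_eq_mul, neg_one_mul, ← neg_eq_iff_eq_neg] at h2
        rw [← h2, mul_neg, inv_mul_cancel_left, neg_one_mul]
      exact this ▸ mul_mem neg_one_mem hg
  subst h3
  refine ⟨rfl, h2.imp (fun h2 => ?_) fun h2 => ?_⟩
  · rwa [mul_inv_eq_one, mul_eq_left] at h2
  · rw [mul_inv_eq_iff_eq_mul, neg_one_mul, ← mul_neg_one] at h2
    exact mul_left_cancel h2

lemma gamma0_cases {g : SL(2, ℤ)} (hg : g ∈ Gamma0 6) : g ∈ Gamma1 6 ∨ -g ∈ Gamma1 6 := by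
  have hdet : g 0 0 * g 1 1 - g 0 1 * g 1 0 = 1 := by
    rw [← Matrix.det_fin_two]; exact g.det_coe
  have h1 : ((g 0 0 : ℤ) : ZMod 6) * (g 1 1 : ℤ) - (g 0 1 : ℤ) * (g 1 0 : ℤ) = 1 := by
    exact_mod_cast congrArg (Int.cast : ℤ → ZMod 6) hdet
  rw [Gamma0_mem] at hg
  rw [hg, mul_zero, sub_zero] at h1
  have key : ∀ a d : ZMod 6, a * d = 1 → (a = 1 ∧ d = 1) ∨ (-a = 1 ∧ -d = 1) := by decide
  rcases key _ _ h1 with h | h
  · exact Or.inl ((Gamma1_mem _ _).2 ⟨h.1, h.2, hg⟩)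
  · refine Or.inr ((Gamma1_mem _ _).2 ?_)
    simpa [hg] using h

lemma dom_fund : IsFundamentalDomain (Gamma1 6) dom volume := by
  refine IsFundamentalDomain.mk'' (isOpen_iUnion tile_open).measurableSet.nullMeasurableSet ?_
    (fun g hg => Disjoint.aedisjoint (disjoint_left.2 ?_))
    fun g => (mp g.1).quasiMeasurePreserving
  · have h0 : ∀ᵐ w : ℍ, w ∉ fd \ fdo := measure_eq_zero_iff_ae_notMem.1 bdry_zero
    have h1 : ∀ᵐ z : ℍ, ∀ γ : SL(2, ℤ), γ • z ∉ fd \ fdo := by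
      rw [ae_all_iff]
      intro γ
      exact (mp γ).quasiMeasurePreserving.ae (p := fun w => w ∉ fd \ fdo) h0
    filter_upwards [h1] with z hz
    obtain ⟨γ, hγ⟩ := exists_smul_mem_fd z
    have h2 : γ • z ∈ fdo := by
      by_contra h
      exact hz γ ⟨hγ, h⟩
    obtain ⟨h, hh⟩ := QuotientGroup.mk_out_eq_mul (Gamma0 6) γ
    have h3 : (h⁻¹ : Gamma0 6).1 • z ∈ tile (QuotientGroup.mk γ) := by
      change (QuotientGroup.mk γ : Qs).out • _ ∈ fdo
      rw [hh, ← mul_smul]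
      simpa using h2
    rcases gamma0_cases (h⁻¹ : Gamma0 6).2 with h4 | h4
    · exact ⟨⟨_, h4⟩, mem_iUnion.2 ⟨_, h3⟩⟩
    · refine ⟨⟨_, h4⟩, mem_iUnion.2 ⟨QuotientGroup.mk γ, ?_⟩⟩
      change (-(h⁻¹ : Gamma0 6).1) • z ∈ _
      rwa [SL_neg_smul]
  · rintro _ ⟨z, hz, rfl⟩ hz'
    obtain ⟨c, hc⟩ := mem_iUnion.1 hz
    obtain ⟨c', hc'⟩ := mem_iUnion.1 hz'
    rcases (tile_key (Gamma1_in_Gamma0 6 g.2) hc hc').2 with h | h
    · exact hg (Subtype.ext h)
    · have h1 := ((Gamma1_mem _ _).1 g.2).1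
      rw [h] at h1
      simp only [Matrix.SpecialLinearGroup.coe_neg, Matrix.SpecialLinearGroup.coe_one,
        Matrix.neg_apply, Matrix.one_apply_eq, Int.cast_neg, Int.cast_one] at h1
      exact absurd h1 (by decide)

lemma tile_vol (c : Qs) : volume (tile c) < ⊤ := by
  rw [tile, (mp _).measure_preimage isOpen_fdo.measurableSet.nullMeasurableSet]
  exact (measure_mono fdo_subset_fd).trans_lt fd_fin

lemma dom_vol : volume dom < ⊤ := by
  have := Fintype.ofFinite Qs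
  refine (measure_iUnion_fintype_le _ _).trans_lt ?_
  exact ENNReal.sum_lt_top.2 fun c _ => tile_vol c

/-- Bounded continuous functions. -/
def BC (φ : ℍ → ℂ) : Prop := Continuous φ ∧ ∃ C, ∀ z, ‖φ z‖ ≤ C

lemma BC.int {φ : ℍ → ℂ} (h : BC φ) : IntegrableOn φ dom := by
  obtain ⟨hc, C, hC⟩ := h
  exact Measure.integrableOn_of_bounded dom_vol.ne hc.aestronglyMeasurable
    (Filter.Eventually.of_forall hC)

theorem sum_eq {φ : ℍ → ℂ} (h : BC φ) :
    ∑ᶠ c : Qs, ∫ τ in fd, φ (c.out⁻¹ • τ) = ∫ z in dom, φ z := by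
  have := Fintype.ofFinite Qs
  rw [finsum_eq_sum_of_fintype, dom, integral_iUnion_fintype
    (fun c => (tile_open c).measurableSet) ?_ fun c => h.int.mono_set (subset_iUnion tile c)]
  · refine Finset.sum_congr rfl fun c _ => ?_
    rw [setIntegral_congr_set fd_ae, tile,
      ← (mp c.out).setIntegral_preimage_emb (memb _) (fun τ => φ (c.out⁻¹ • τ)) fdo]
    simp only [inv_smul_smul]
  · intro c c' hcc
    refine disjoint_left.2 fun z hz hz' => hcc ?_
    exact (tile_key (one_mem _) hz (by rwa [one_smul])).1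

theorem int_move {φ : ℍ → ℂ} (hφ : ∀ g ∈ Gamma0 6, ∀ z, φ (g • z) = φ z) (A : GL (Fin 2) ℝ)
    (h1 : ∀ g ∈ Gamma1 6, ∃ g' ∈ Gamma1 6, A * (g' : SL(2, ℤ)) = (g : SL(2, ℤ)) * A)
    (h2 : ∀ g' ∈ Gamma1 6, ∃ g ∈ Gamma1 6, A * (g' : SL(2, ℤ)) = (g : SL(2, ℤ)) * A) :
    ∫ z in dom, φ (A⁻¹ • z) = ∫ z in dom, φ z := by
  choose e he1 he2 using h1
  have hinj : Function.Injective fun g : SL(2, ℤ) => (g : GL (Fin 2) ℝ) :=
    Matrix.SpecialLinearGroup.mapGL_injective
  have hb : Function.Bijective fun g : Gamma1 6 => (⟨e g.1 g.2, he1 g.1 g.2⟩ : Gamma1 6) := by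
    constructor
    · intro g g' h
      have h3 : e g.1 g.2 = e g'.1 g'.2 := congrArg Subtype.val h
      have h4 := he2 g.1 g.2
      rw [h3, he2] at h4
      exact Subtype.ext (hinj (mul_right_cancel h4)).symm
    · intro g'
      obtain ⟨g, hg, h3⟩ := h2 g'.1 g'.2
      refine ⟨⟨g, hg⟩, Subtype.ext (hinj (mul_left_cancel (a := A) ?_))⟩
      exact (he2 g hg).trans h3.symm
  have hf := dom_fund.preimage_of_equiv (f := fun z => A • z)
    (measurePreserving_smul A volume).quasiMeasurePreserving hb fun g z => by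
      change A • ((e g.1 g.2 : SL(2, ℤ)) : GL (Fin 2) ℝ) • z = ((g.1 : SL(2, ℤ)) : GL (Fin 2) ℝ) • A • z
      rw [← mul_smul, he2, mul_smul]
  rw [dom_fund.setIntegral_eq hf (f := φ) fun g z => hφ g.1 (Gamma1_in_Gamma0 6 g.2) z,
    ← (measurePreserving_smul A volume).setIntegral_preimage_emb
      (measurableEmbedding_const_smul A) (fun z => φ (A⁻¹ • z)) dom]
  simp only [inv_smul_smul]

theorem eq_zero_of_int {ψ : ℍ → ℝ} (h : BC fun z => ψ z) (h0 : ∀ z, 0 ≤ ψ z)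
    (hψ : ∀ g ∈ Gamma0 6, ∀ z, ψ (g • z) = ψ z) (hi : ∫ z in dom, (ψ z : ℂ) = 0) (z : ℍ) :
    ψ z = 0 := by
  have hc : Continuous ψ := Complex.continuous_re.comp h.1
  rw [integral_complex_ofReal, Complex.ofReal_eq_zero,
    integral_eq_zero_iff_of_nonneg h0 (by simpa using h.int.re)] at hi
  have ho : IsOpen {z | ψ z ≠ 0} := isOpen_ne_fun hc continuous_const
  have h1 : volume {z | ψ z ≠ 0} = 0 := by
    refine dom_fund.measure_zero_of_invariant _ (fun g => ?_) ?_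
    · ext w
      rw [mem_smul_set_iff_inv_smul_mem]
      change ψ ((g⁻¹ : Gamma1 6).1 • w) ≠ 0 ↔ ψ w ≠ 0
      rw [hψ _ (Gamma1_in_Gamma0 6 (g⁻¹).2)]
    · rw [← Measure.restrict_apply ho.measurableSet]
      exact hi
  by_contra hz
  exact (ho.measure_pos volume ⟨z, hz⟩).ne' h1

end Pool.Agent.P.MP_8d0004_nt.NF
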