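import Pool.Agent.P.MP_8d0004_nt.NF.Inv
import Pool.Agent.P.MP_8d0004_nt.NF.Pet

/-! The new subspace of weight six and level six. -/

set_option autoImplicit false

namespace Pool.Agent.P.MP_8d0004_nt.NF

open UpperHalfPlane ModularForm Filter Asymptotics Complex EisensteinSeries CongruenceSubgroup
open Pool.Agent.P.MP_8d0004_nt.LR.M2 MeasureTheory
open scoped MatrixGroups Manifold Topology Real

/-- Cusp forms of weight six, as a predicate. -/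
structure CF (M : ℕ) (f : ℍ → ℂ) : Prop where
  hol : MDifferentiable 𝓘(ℂ) 𝓘(ℂ) f
  inv : ∀ g : SL(2, ℤ), (M : ℤ) ∣ g 1 0 → f ∣[(6 : ℤ)] g = f
  cusp : Cusp f

lemma mem0 {M : ℕ} {g : SL(2, ℤ)} : g ∈ Gamma0 M ↔ (M : ℤ) ∣ g 1 0 := by
  rw [Gamma0_mem, ZMod.intCast_zmod_eq_zero_iff_dvd]

lemma CF.of {M : ℕ} [NeZero M] (F : CuspForm (Gamma0 M) 6) : CF M F :=
  ⟨F.holo', fun g hg => F.slash_action_eq' (g : GL (Fin 2) ℝ) ⟨g, mem0.2 hg, rfl⟩,
    fun g => CuspFormClass.zero_at_infty_slash F g⟩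

/-- The bundled cusp form. -/
noncomputable def CF.form {M : ℕ} [NeZero M] {f : ℍ → ℂ} (h : CF M f) : CuspForm (Gamma0 M) 6 where
  toFun := f
  slash_action_eq' := by
    rintro _ ⟨g, hg, rfl⟩
    exact h.inv g (mem0.1 hg)
  holo' := h.hol
  zero_at_cusps' := fun {c} hc => by
    rw [OnePoint.isZeroAt_iff_forall_SL2Z
      ((Subgroup.IsArithmetic.isCusp_iff_isCusp_SL2Z _).1 hc)]
    exact fun g _ => h.cusp g

lemma CF.mono {M N : ℕ} {f : ℍ → ℂ} (h : CF M f) (hMN : M ∣ N) : CF N f :=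
  ⟨h.hol, fun g hg => h.inv g ((Int.natCast_dvd_natCast.2 hMN).trans hg), h.cusp⟩

lemma CF.mf {f : ℍ → ℂ} (h : CF 6 f) : MF 6 f :=
  ⟨h.hol, h.inv, fun g => (h.cusp g).isBoundedAtImInfty⟩

lemma form_ap {M : ℕ} [NeZero M] (F : CuspForm (Gamma0 M) 6) :
    Ap F ((qExpansion 1 F).coeff 0) ((qExpansion 1 F).coeff 1) ((qExpansion 1 F).coeff 2)
      ((qExpansion 1 F).coeff 3) ((qExpansion 1 F).coeff 4) ((qExpansion 1 F).coeff 5)
      ((qExpansion 1 F).coeff 6) :=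
  Ap_of_hasSum (c := fun m => (qExpansion 1 F).coeff m) fun τ =>
    ModularForm.hasSum_qExpansion F one_pos (by simp) τ

lemma CF.dil {M : ℕ} {f : ℍ → ℂ} (h : CF M f) (t : ℕ+) : CF (M * t) fun τ => f (dm t • τ) := by
  have ht : ((t : ℕ) : ℂ) ^ ((6 : ℤ) - 1) ≠ 0 := zpow_ne_zero _ (by exact_mod_cast t.ne_zero)
  have e : (fun τ => f (dm t • τ)) = (((t : ℕ) : ℂ) ^ ((6 : ℤ) - 1))⁻¹ • f ∣[(6 : ℤ)] dm t := by
    funext τ
    rw [Pi.smul_apply, dm_slash, smul_eq_mul, inv_mul_cancel_left₀ ht]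
  rw [e]
  refine ⟨(h.hol.slash _ _).const_smul _, fun g hg => ?_, fun g => ?_⟩
  · push_cast at hg
    obtain ⟨g', h0, -, he⟩ := exists_conj t g ((dvd_mul_left _ _).trans hg)
    have h1 : (M : ℤ) ∣ g' 1 0 := by
      rw [← h0, mul_comm] at hg
      exact (mul_dvd_mul_iff_left (by exact_mod_cast t.ne_zero)).1 hg
    rw [SL_smul_slash, SL_slash, ← SlashAction.slash_mul, he, SlashAction.slash_mul, ← SL_slash,
      h.inv g' h1]
  · obtain ⟨g', u, hu, he⟩ := exists_upper t g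
    rw [SL_smul_slash, SL_slash, ← SlashAction.slash_mul, he, SlashAction.slash_mul]
    exact ((h.cusp g').slash 6 hu).smul _

lemma U_inv (t : ℕ+) (g : SL(2, ℤ)) (hg : ((t : ℕ) : ℤ) ∣ g 1 0) : U t ∣[(2 : ℤ)] g = U t := by
  obtain ⟨g', h0, h1, he⟩ := exists_conj t g hg
  have hD : ∀ z : ℍ, ((t : ℕ) : ℂ) * D2 g' (dm t • z) = D2 g z := by
    intro z
    have h0' : ((t : ℕ) : ℂ) * (g' 1 0 : ℤ) = (g 1 0 : ℤ) := by exact_mod_cast h0
    have hd : denom g' (dm t • z : ℍ) = denom g z := by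
      simp only [denom, dm_smul]
      simp [h1, ← h0']
      ring
    simp only [D2, hd, ← h0']
    ring
  rw [U, sub_eq_add_neg, SlashAction.add_slash, SlashAction.neg_slash, SL_slash (E2 ∣[_] _),
    ← SlashAction.slash_mul, he, SlashAction.slash_mul, ← SL_slash, E2_slash_action,
    E2_slash_action]
  ext z
  simp only [Pi.add_apply, Pi.neg_apply, Pi.sub_apply, Pi.smul_apply, dm_slash, smul_eq_mul,
    ← hD z]
  norm_num
  ring

lemma cf_comb (x y w : ℂ) :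
    CF 6 fun z => x * (Zc * Zc * Wc) z + y * (Zc * Wc * Wc) z + w * (Zc * Wc * hc) z := by
  have h : MF 6 fun z => x * (Zc * Zc * Wc) z + y * (Zc * Wc * Wc) z + w * (Zc * Wc * hc) z :=
    (((mZZW.1.smul x).add (mZWW.1.smul y)).add (mZWh.1.smul w)).congr fun _ => rfl
  exact ⟨h.hol, h.inv, cusp_cub h x y w fun _ => rfl⟩

lemma cf_of {f : ℍ → ℂ} (x y w : ℂ)
    (h : ∀ z, f z = x * (Zc * Zc * Wc) z + y * (Zc * Wc * Wc) z + w * (Zc * Wc * hc) z) :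
    CF 6 f := by
  rw [funext h]
  exact cf_comb x y w

lemma cf1 : CF 6 (Zc * Zc * Wc) := cf_of 1 0 0 fun _ => by ring
lemma cf2 : CF 6 (Zc * Wc * Wc) := cf_of 0 1 0 fun _ => by ring
lemma cf0 : CF 6 (Zc * Wc * hc) := cf_of 0 0 1 fun _ => by ring

lemma cf3 : CF 3 (Zc * Zc * Wc) := by
  refine ⟨cf1.hol, fun g hg => ?_, cf1.cusp⟩
  have hinv : ∀ g : SL(2, ℤ), (E₆ : ℍ → ℂ) ∣[(6 : ℤ)] g = E₆ := fun g =>
    E₆.slash_action_eq' (g : GL (Fin 2) ℝ) ⟨g, rfl⟩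
  have e : Zc * Zc * Wc = (13 / 1728 : ℂ) • (U 3 * U 3 * U 3) +
      ((-1 / 3888 : ℂ) • ((E₆ : ℍ → ℂ) ∣[(6 : ℤ)] dm 3) + (1 / 432 : ℂ) • (E₆ : ℍ → ℂ)) := by
    funext z
    obtain ⟨-, -, -, -, -, a, -, b, -⟩ := all z _ _ _ rfl rfl rfl
    have hU : U 3 z = 2 * Zc z + 32 * Wc z := by
      rw [U_apply, Zc, Wc, c3]
      push_cast
      ring
    simp only [Pi.add_apply, Pi.smul_apply, Pi.mul_apply, smul_eq_mul, dm_slash, hU, c3]
    norm_num
    linear_combination b / 432 - a / 432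
  obtain ⟨g', -, -, he⟩ := exists_conj 3 g hg
  have h1 : ((E₆ : ℍ → ℂ) ∣[(6 : ℤ)] dm 3) ∣[(6 : ℤ)] g = (E₆ : ℍ → ℂ) ∣[(6 : ℤ)] dm 3 := by
    rw [SL_slash, ← SlashAction.slash_mul, he, SlashAction.slash_mul, ← SL_slash, hinv]
  have h2 : (U 3 * U 3 * U 3) ∣[(6 : ℤ)] g = U 3 * U 3 * U 3 := by
    rw [show (6 : ℤ) = 2 + 2 + 2 by norm_num, mul_slash_SL2, mul_slash_SL2, U_inv 3 g hg]
  rw [e, SlashAction.add_slash, SlashAction.add_slash, SL_smul_slash, SL_smul_slash,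
    SL_smul_slash, h1, h2, hinv]

lemma dil_g1 (z : ℍ) : (Zc * Zc * Wc) (dm 2 • z) = (Zc * Wc * Wc) z :=
  MA.eq (n := 6) le_rfl (f := fun z => (Zc * Zc * Wc) (dm 2 • z))
    ⟨(cf3.dil 2).mf, mZZW.2.dm2⟩ mZWW z

lemma dm_mul (s t : ℕ+) (z : ℍ) : dm s • dm t • z = dm (s * t) • z := by
  ext
  simp only [dm_smul]
  push_cast
  ring

lemma low_zero {M : ℕ} [NeZero M] (hM : M ∣ 2) (G : CuspForm (Gamma0 M) 6) (z : ℍ) : G z = 0 := by
  obtain ⟨x, y, w, h, h1, h2, -, h4⟩ :=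
    cusp_dec ⟨(((CF.of G).mono hM).dil 3).mf, (form_ap G).dm3⟩ (((CF.of G).mono hM).dil 3).cusp
  obtain rfl : x = 0 := by linear_combination (5 / 9) * h1 - (1 / 12) * h2 - (1 / 72) * h4
  obtain rfl : w = 0 := by linear_combination h1
  obtain rfl : y = 0 := by linear_combination h2
  have := h ((dm 3)⁻¹ • z)
  simpa using this

lemma old_dec {M : ℕ} {d : ℕ+} (h : M * d ∣ 6) (hM : M ≠ 6) (G : CuspForm (Gamma0 M) 6) :
    ∃ x y : ℂ, ∀ z, G (dm d • z) = x * (Zc * Zc * Wc) z + y * (Zc * Wc * Wc) z := by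
  have hM6 : M ∣ 6 := (dvd_mul_right _ _).trans h
  have : NeZero M := ⟨fun h0 => by simp [h0] at hM6⟩
  have hc : M ∣ 2 ∨ M = 3 := by
    have := Nat.le_of_dvd (by norm_num) hM6
    interval_cases M <;> simp_all
  rcases hc with hc | rfl
  · exact ⟨0, 0, fun z => by rw [low_zero hc G]; ring⟩
  obtain ⟨x, y, w, e, h1, h2, h3, -⟩ :=
    cusp_dec ⟨((CF.of G).dil 2).mf, (form_ap G).dm2⟩ ((CF.of G).dil 2).cusp
  obtain rfl : x = 0 := by linear_combination h1 / 2 + h3 / 18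
  obtain rfl : w = 0 := by linear_combination h1
  have hd : (d : ℕ) ∣ 2 := (Nat.mul_dvd_mul_iff_left (by norm_num : 0 < 3)).1 h
  rcases (Nat.dvd_prime Nat.prime_two).1 hd with hd | hd
  · obtain rfl : d = 1 := Subtype.ext hd
    refine ⟨y, 0, fun z => ?_⟩
    have := e ((dm 2)⁻¹ • z)
    rw [← dil_g1, smul_inv_smul] at this
    rw [dm_one, this]
    ring
  · obtain rfl : d = 2 := Subtype.ext hd
    exact ⟨0, y, fun z => by rw [e]; ring⟩

/-- The Petersson product of weight six and level six. -/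
noncomputable def pt (f g : ℍ → ℂ) : ℂ :=
  ∑ᶠ c : Qs, ∫ τ in ModularGroup.fd, petersson 6 f g (c.out⁻¹ • τ)

lemma bc {f g : ℍ → ℂ} (hf : CF 6 f) (hg : CF 6 g) : BC (petersson 6 f g) :=
  ⟨petersson_continuous 6 hf.hol.continuous hg.hol.continuous,
    CuspFormClass.petersson_bounded_left 6 _ hf.form hg.form⟩

lemma pet_inv {f g : ℍ → ℂ} (hf : CF 6 f) (hg : CF 6 g) (γ : SL(2, ℤ)) (h : γ ∈ Gamma0 6) (z : ℍ) :
    petersson 6 f g (γ • z) = petersson 6 f g z := by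
  rw [← petersson_slash_SL, hf.inv γ (mem0.1 h), hg.inv γ (mem0.1 h)]

lemma pt_eq {f g : ℍ → ℂ} (hf : CF 6 f) (hg : CF 6 g) : pt f g = ∫ z in dom, petersson 6 f g z :=
  sum_eq (bc hf hg)

lemma mk00 (a b c d : ℤ) (h : a * d - b * c = 1) : mk2 a b c d h 0 0 = a := rfl
lemma mk01 (a b c d : ℤ) (h : a * d - b * c = 1) : mk2 a b c d h 0 1 = b := rfl
lemma mk10 (a b c d : ℤ) (h : a * d - b * c = 1) : mk2 a b c d h 1 0 = c := rfl
lemma mk11 (a b c d : ℤ) (h : a * d - b * c = 1) : mk2 a b c d h 1 1 = d := rfl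

lemma conj1 : ∀ g ∈ Gamma1 6, ∃ g' ∈ Gamma1 6, (g3 : GL (Fin 2) ℝ) * dm 3 * (g' : SL(2, ℤ)) =
    (g : SL(2, ℤ)) * ((g3 : GL (Fin 2) ℝ) * dm 3) := by
  intro g hg
  obtain ⟨ha, hd, hc⟩ := (Gamma1_mem _ _).1 hg
  obtain ⟨c, hc'⟩ := (ZMod.intCast_zmod_eq_zero_iff_dvd _ 6).1 hc
  have hdet : g 0 0 * g 1 1 - g 0 1 * g 1 0 = 1 := by
    rw [← Matrix.det_fin_two]; exact g.det_coe
  have h6 : (6 : ZMod 6) = 0 := rfl
  push_cast at hc'
  refine ⟨mk2 (3 * g 0 0 + 6 * g 0 1 - 6 * c - 2 * g 1 1) (g 0 0 + 3 * g 0 1 - g 1 1 - 2 * c)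
    (-6 * g 0 0 - 12 * g 0 1 + 18 * c + 6 * g 1 1) (-2 * g 0 0 - 6 * g 0 1 + 6 * c + 3 * g 1 1)
    (by linear_combination hdet + g 0 1 * hc'), (Gamma1_mem _ _).2 ⟨?_, ?_, ?_⟩, ?_⟩
  · change ((3 * g 0 0 + 6 * g 0 1 - 6 * c - 2 * g 1 1 : ℤ) : ZMod 6) = 1
    push_cast
    linear_combination 3 * ha - 2 * hd + ((g 0 1 : ℤ) - c : ZMod 6) * h6
  · change ((-2 * g 0 0 - 6 * g 0 1 + 6 * c + 3 * g 1 1 : ℤ) : ZMod 6) = 1
    push_cast
    linear_combination 3 * hd - 2 * ha + (c - (g 0 1 : ℤ) : ZMod 6) * h6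
  · change ((-6 * g 0 0 - 12 * g 0 1 + 18 * c + 6 * g 1 1 : ℤ) : ZMod 6) = 0
    push_cast
    linear_combination (-(g 0 0 : ℤ) - 2 * (g 0 1 : ℤ) + 3 * c + (g 1 1 : ℤ) : ZMod 6) * h6
  · ext i j
    fin_cases i <;> fin_cases j <;>
      simp [dm_coe, g3, mk00, mk01, mk10, mk11, Matrix.mul_apply, Fin.sum_univ_two, hc'] <;> ring

lemma conj2 : ∀ g' ∈ Gamma1 6, ∃ g ∈ Gamma1 6, (g3 : GL (Fin 2) ℝ) * dm 3 * (g' : SL(2, ℤ)) =
    (g : SL(2, ℤ)) * ((g3 : GL (Fin 2) ℝ) * dm 3) := by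
  intro g hg
  obtain ⟨ha, hd, hc⟩ := (Gamma1_mem _ _).1 hg
  obtain ⟨c, hc'⟩ := (ZMod.intCast_zmod_eq_zero_iff_dvd _ 6).1 hc
  have hdet : g 0 0 * g 1 1 - g 0 1 * g 1 0 = 1 := by
    rw [← Matrix.det_fin_two]; exact g.det_coe
  have h6 : (6 : ZMod 6) = 0 := rfl
  push_cast at hc'
  refine ⟨mk2 (3 * g 0 0 + 6 * c - 6 * g 0 1 - 2 * g 1 1) (-g 0 0 - 2 * c + 3 * g 0 1 + g 1 1)
    (6 * g 0 0 + 18 * c - 12 * g 0 1 - 6 * g 1 1) (-2 * g 0 0 - 6 * c + 6 * g 0 1 + 3 * g 1 1)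
    (by linear_combination hdet + g 0 1 * hc'), (Gamma1_mem _ _).2 ⟨?_, ?_, ?_⟩, ?_⟩
  · change ((3 * g 0 0 + 6 * c - 6 * g 0 1 - 2 * g 1 1 : ℤ) : ZMod 6) = 1
    push_cast
    linear_combination 3 * ha - 2 * hd + (c - (g 0 1 : ℤ) : ZMod 6) * h6
  · change ((-2 * g 0 0 - 6 * c + 6 * g 0 1 + 3 * g 1 1 : ℤ) : ZMod 6) = 1
    push_cast
    linear_combination 3 * hd - 2 * ha + ((g 0 1 : ℤ) - c : ZMod 6) * h6
  · change ((6 * g 0 0 + 18 * c - 12 * g 0 1 - 6 * g 1 1 : ℤ) : ZMod 6) = 0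
    push_cast
    linear_combination ((g 0 0 : ℤ) - 2 * (g 0 1 : ℤ) + 3 * c - (g 1 1 : ℤ) : ZMod 6) * h6
  · ext i j
    fin_cases i <;> fin_cases j <;>
      simp [dm_coe, g3, mk00, mk01, mk10, mk11, Matrix.mul_apply, Fin.sum_univ_two, hc'] <;> ring

lemma orth (x y : ℂ) {g : ℍ → ℂ}
    (h : ∀ z, g z = x * (Zc * Zc * Wc) z + y * (Zc * Wc * Wc) z) : pt (Zc * Wc * hc) g = 0 := by
  have hg : CF 6 g := cf_of x y 0 fun z => by rw [h]; ring
  have e0 : ((Zc * Wc * hc) ∣[(6 : ℤ)] g3) ∣[(6 : ℤ)] dm 3 = fun z => 9 * (Zc * Wc * hc) z := by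
    funext z
    rw [al_apply _ g3 3 z ((Zc * Wc * hc) z), c3]
    · norm_num
    · obtain ⟨a, b, d⟩ := w3 z _ rfl
      simp only [Pi.mul_apply, a, b, d, c3, Nat.cast_ofNat]
      ring
  have e1 : (g ∣[(6 : ℤ)] g3) ∣[(6 : ℤ)] dm 3 = fun z => -9 * g z := by
    funext z
    rw [al_apply _ g3 3 z (-g z), c3]
    · push_cast
      ring
    · obtain ⟨a, b, d⟩ := w3 z _ rfl
      simp only [h, Pi.mul_apply, a, b, c3, Nat.cast_ofNat]
      ring
  have e2 : ∀ z, petersson 6 (Zc * Wc * hc) g (((g3 : GL (Fin 2) ℝ) * dm 3) • z) =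
      -petersson 6 (Zc * Wc * hc) g z := by
    intro z
    have := petersson_slash 6 ((Zc * Wc * hc) ∣[(6 : ℤ)] g3) (g ∣[(6 : ℤ)] g3) (dm 3) z
    rw [e0, e1, petersson_slash_SL, dm_sigma, dm_det, c3, ModularGroup.sl_moeb, ← mul_smul] at this
    have h9 : petersson 6 (fun z => 9 * (Zc * Wc * hc) z) (fun z => -9 * g z) z =
        -81 * petersson 6 (Zc * Wc * hc) g z := by
      simp only [petersson, map_mul, map_ofNat]
      ring
    rw [h9] at this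
    norm_num at this
    linear_combination (-1 / 81 : ℂ) * this
  have e3 := int_move (pet_inv cf0 hg) _ conj1 conj2
  have e4 : ∀ z, petersson 6 (Zc * Wc * hc) g (((g3 : GL (Fin 2) ℝ) * dm 3)⁻¹ • z) =
      -petersson 6 (Zc * Wc * hc) g z := by
    intro z
    have := e2 (((g3 : GL (Fin 2) ℝ) * dm 3)⁻¹ • z)
    rw [smul_inv_smul] at this
    rw [this, neg_neg]
  simp only [e4, integral_neg] at e3
  rw [pt_eq cf0 hg]
  linear_combination (-1 / 2 : ℂ) * e3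

lemma pt_left {f f1 f2 g : ℍ → ℂ} (hf : CF 6 f) (h1 : CF 6 f1) (h2 : CF 6 f2) (hg : CF 6 g)
    (w : ℂ) (h : ∀ z, f z = f1 z + w * f2 z) :
    pt f g = pt f1 g + (starRingEnd ℂ) w * pt f2 g := by
  rw [pt_eq hf hg, pt_eq h1 hg, pt_eq h2 hg, ← integral_const_mul,
    ← integral_add (bc h1 hg).int ((bc h2 hg).int.const_mul _)]
  refine integral_congr_ae (Eventually.of_forall fun z => ?_)
  simp only [petersson, h, map_add, map_mul]
  ring

lemma pt_right {f g g1 g2 : ℍ → ℂ} (hf : CF 6 f) (hg : CF 6 g) (h1 : CF 6 g1) (h2 : CF 6 g2)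
    (x y : ℂ) (h : ∀ z, g z = x * g1 z + y * g2 z) : pt f g = x * pt f g1 + y * pt f g2 := by
  rw [pt_eq hf hg, pt_eq hf h1, pt_eq hf h2, ← integral_const_mul, ← integral_const_mul,
    ← integral_add ((bc hf h1).int.const_mul _) ((bc hf h2).int.const_mul _)]
  refine integral_congr_ae (Eventually.of_forall fun z => ?_)
  simp only [petersson, h]
  ring

lemma pt_self {f : ℍ → ℂ} (hf : CF 6 f) (h : pt f f = 0) (z : ℍ) : f z = 0 := by
  have e : petersson 6 f f = fun z => ((normSq (f z) * z.im ^ (6 : ℤ) : ℝ) : ℂ) := by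
    funext z
    rw [petersson, ofReal_mul, normSq_eq_conj_mul_self, ofReal_zpow]
  have h1 := bc hf hf
  have h2 := pet_inv hf hf
  rw [pt_eq hf hf, e] at h
  rw [e] at h1 h2
  have := eq_zero_of_int h1 (fun z => mul_nonneg (normSq_nonneg _) (zpow_nonneg z.im_pos.le _))
    (fun g hg z => Complex.ofReal_injective (h2 g hg z)) h z
  exact normSq_eq_zero.1 ((mul_eq_zero.1 this).resolve_right (zpow_ne_zero _ z.im_ne_zero))

theorem new_iff (F : CuspForm (Gamma0 6) 6) :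
    (∀ (M : ℕ) (d : ℕ+), M * d ∣ 6 → M ≠ 6 → ∀ G : CuspForm (Gamma0 M) 6,
      pt F (fun τ => G (dm d • τ)) = 0) ↔ ∃ c : ℂ, F = c • cf0.form := by
  constructor
  · intro hF
    obtain ⟨x, y, w, e, -⟩ := cusp_dec ⟨(CF.of F).mf, form_ap F⟩ (CF.of F).cusp
    have hH : CF 6 fun z => x * (Zc * Zc * Wc) z + y * (Zc * Wc * Wc) z :=
      cf_of x y 0 fun z => by ring
    have a1 : pt F (Zc * Zc * Wc) = 0 := by
      have := hF 3 1 (by norm_num) (by norm_num) cf3.form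
      simp only [dm_one] at this
      exact this
    have a2 : pt F (Zc * Wc * Wc) = 0 := by
      have := hF 3 2 (by rw [c2]) (by norm_num) cf3.form
      rwa [show (fun τ => cf3.form (dm 2 • τ)) = Zc * Wc * Wc from funext dil_g1] at this
    have a3 := pt_right (CF.of F) hH cf1 cf2 x y fun _ => rfl
    rw [a1, a2, pt_left (CF.of F) hH cf0 hH w e, orth x y fun _ => rfl] at a3
    refine ⟨w, CuspForm.ext fun z => ?_⟩
    have := pt_self hH (by linear_combination a3) z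
    rw [e, this, zero_add]
    rfl
  · rintro ⟨c, rfl⟩ M d h hM G
    obtain ⟨x, y, e⟩ := old_dec h hM G
    have hg : CF 6 fun τ => G (dm d • τ) := cf_of x y 0 fun z => by rw [e]; ring
    rw [pt_left (CF.of _) cf0 cf0 hg (c - 1) fun z => ?_, orth x y e]
    · ring
    · change c * (Zc * Wc * hc) z = _
      ring

lemma coeff_one : (qExpansion 1 cf0.form).coeff 1 = 1 := by
  have h0 : (qExpansion 1 cf0.form).coeff 0 = 0 :=
    CuspFormClass.qExpansion_coeff_zero cf0.form one_pos (by simp)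
  have h := IsBigO.sub mZWh.2 (form_ap cf0.form)
  rw [h0] at h
  generalize (qExpansion 1 cf0.form).coeff 1 = a1 at *
  generalize (qExpansion 1 cf0.form).coeff 2 = a2 at *
  generalize (qExpansion 1 cf0.form).coeff 3 = a3 at *
  generalize (qExpansion 1 cf0.form).coeff 4 = a4 at *
  generalize (qExpansion 1 cf0.form).coeff 5 = a5 at *
  generalize (qExpansion 1 cf0.form).coeff 6 = a6 at *
  have h1 : (fun τ => q τ ^ 7) =o[atImInfty] fun τ => q τ ^ 1 :=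
    (isLittleO_pow_pow (𝕜 := ℂ) (show 1 < 7 by omega)).comp_tendsto q_tendsto
  have h2 := (h.trans_isLittleO h1).tendsto_div_nhds_zero
  have h3 := ((pl_cont (a1 - 1) (a2 - 4) (a3 + 9) (a4 - 16) (a5 + 66) (a6 + 36) 0).tendsto 0).comp
    q_tendsto
  have h4 := tendsto_nhds_unique h3 (h2.congr fun τ => ?_)
  · simpa [pl, sub_eq_zero] using h4
  · have := q_ne τ
    change _ = pl _ _ _ _ _ _ _ (q τ)
    rw [show cf0.form τ = (Zc * Wc * hc) τ from rfl]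
    simp only [pl]
    field_simp
    ring

end Pool.Agent.P.MP_8d0004_nt.NF
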